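import Pool.Agent.helper68.GB.Spec
import Pool.Agent.helper59.FI.Base

set_option autoImplicit false

namespace Pool.Agent.GB

open Pool.Agent.helper58.DC Pool.Agent.DI Pool.Agent.GR Pool.Agent.OB Pool.Agent.DR Pool.Agent.FI Pool.Agent.FI3 Pool.Agent.FI4 Pool.Agent.LE Pool.Agent.BR

open Classical in
theorem TSZ_fs {α : Type*} (U : Set α) (s : Finset α) (hU : ∀ z ∈ U, z ∈ s) (f : α → ℂ) :
    ∑ᶠ z ∈ U, f z = ∑ z ∈ s, if z ∈ U then f z else 0 := by
  have hf : U.Finite := s.finite_toSet.subset hU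
  rw [finsum_mem_eq_finite_toFinset_sum f hf, ← Finset.sum_filter]
  apply Finset.sum_congr _ (fun _ _ => rfl)
  ext z
  rw [Set.Finite.mem_toFinset, Finset.mem_filter]
  exact ⟨fun h => ⟨hU z h, h⟩, fun h => h.2⟩

theorem TSZ_fin (hREP : REP_stmt) {p : ℕ} {M : Ideal (integralClosure ℤ ℂ)} (h : Setup p M) {G : Type} [Group G] [Finite G]
    (P : Subgroup G) : {z : Subgroup G × (G → ℂ) | z.1 ≤ P ∧ Pai p M z.1 z.2}.Finite := by
  refine (Set.finite_iUnion (fun R : Subgroup G => ((hREP p M h G (cz R)).1.image (fun e => (R, e))))).subset ?_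
  rintro ⟨R, e⟩ ⟨_, h2⟩
  exact Set.mem_iUnion.2 ⟨R, e, h2.bb, rfl⟩

theorem TSZ_ex (hUQT : UQT_stmt) (hREP : REP_stmt) {p : ℕ} {M : Ideal (integralClosure ℤ ℂ)} (h : Setup p M) {G : Type} [Group G]
    [Finite G] (P : Subgroup G) (u : G) (s : Finset (Subgroup G × (G → ℂ)))
    (hs : ∀ z, z ∈ s ↔ z.1 ≤ P ∧ Pai p M z.1 z.2) (g : (G → ℂ) → ℂ) (k : Subgroup G × (G → ℂ) → ℂ) :
    open Classical in
    ∑ᶠ e ∈ BB M (Cz (⊤ : Subgroup G) u), g e * ∑ᶠ z ∈ Up p M P (Subgroup.zpowers u) e, k z =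
      ∑ z ∈ s, if u ∈ z.1 then g (un p M z.1 z.2 (Subgroup.zpowers u)) * k z else 0 := by
  classical
  have hb := (hREP p M h G (Cz (⊤ : Subgroup G) u)).1
  rw [finsum_mem_eq_finite_toFinset_sum _ hb]
  have e1 : ∀ e ∈ hb.toFinset, g e * ∑ᶠ z ∈ Up p M P (Subgroup.zpowers u) e, k z =
      ∑ z ∈ s, if z ∈ Up p M P (Subgroup.zpowers u) e then g e * k z else 0 := by
    intro e _
    rw [TSZ_fs (Up p M P (Subgroup.zpowers u) e) s (fun z hz => (hs z).2 ⟨hz.1, hz.2.1⟩) k, Finset.mul_sum]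
    apply Finset.sum_congr rfl
    intro z _
    split_ifs
    · rfl
    · rw [mul_zero]
  rw [Finset.sum_congr rfl e1, Finset.sum_comm]
  apply Finset.sum_congr rfl
  intro z hz
  obtain ⟨hz1, hz2⟩ := (hs z).1 hz
  obtain ⟨_, q2, _, q4, _⟩ := hUQT p M h G z.1 z.2 hz2
  split_ifs with hu'
  · have hle : Subgroup.zpowers u ≤ z.1 := by rwa [Subgroup.zpowers_le]
    obtain ⟨a1, a2⟩ := q2 _ hle
    rw [Finset.sum_eq_single (un p M z.1 z.2 (Subgroup.zpowers u))]
    · rw [if_pos ⟨hz1, hz2, a2⟩]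
    · intro e _ hne
      rw [if_neg]
      rintro ⟨_, _, h3⟩
      exact hne (q4 _ _ h3).2
    · intro hne
      exact absurd (hb.mem_toFinset.2 (by rw [← cz_zp]; exact a1.bb)) hne
  · apply Finset.sum_eq_zero
    intro e _
    rw [if_neg]
    rintro ⟨_, _, h3⟩
    exact hu' ((q4 _ _ h3).1 (Subgroup.mem_zpowers u))

theorem TSZ_in {G : Type} [Group G] [Fintype G] (P Q : Subgroup G)
    (e : G → ℂ) (q : ℕ) (w : G) (L ψ : G → ℂ) (ψ' : G → ℂ) :
    open Classical in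
    ∑ᶠ t ∈ {t : Fin q → G | stb P Q e t = Q},
        (∏ i, e (t i)) * ∑ᶠ u ∈ (Q : Set G), L u * ψ (u * (w * (List.ofFn t).prod)) * ψ' (u * w)⁻¹ =
      ∑ u : G, if u ∈ Q then L u * YY P Q e q (fun x => ψ (u * w * x)) * ψ' (u * w)⁻¹ else 0 := by
  classical
  rw [TSZ_fs _ Finset.univ (fun z _ => Finset.mem_univ z)]
  have e1 : ∀ t ∈ (Finset.univ : Finset (Fin q → G)), (if t ∈ {t : Fin q → G | stb P Q e t = Q} then
      (∏ i, e (t i)) * ∑ᶠ u ∈ (Q : Set G), L u * ψ (u * (w * (List.ofFn t).prod)) * ψ' (u * w)⁻¹ else 0) =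
      ∑ u : G, if t ∈ {t : Fin q → G | stb P Q e t = Q} then (if u ∈ Q then (∏ i, e (t i)) *
        (L u * ψ (u * (w * (List.ofFn t).prod)) * ψ' (u * w)⁻¹) else 0) else 0 := by
    intro t _
    by_cases ht : t ∈ {t : Fin q → G | stb P Q e t = Q}
    · simp only [if_pos ht]
      rw [TSZ_fs (Q : Set G) Finset.univ (fun z _ => Finset.mem_univ z), Finset.mul_sum]
      apply Finset.sum_congr rfl
      intro u _
      by_cases hu : u ∈ Q
      · rw [if_pos hu, if_pos (show u ∈ (Q : Set G) from hu)]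
      · rw [if_neg hu, if_neg (show ¬ u ∈ (Q : Set G) from hu), mul_zero]
    · simp only [if_neg ht]
      exact Finset.sum_const_zero.symm
  rw [Finset.sum_congr rfl e1, Finset.sum_comm]
  apply Finset.sum_congr rfl
  intro u _
  by_cases hu : u ∈ Q
  · simp only [if_pos hu]
    unfold YY
    rw [TSZ_fs _ Finset.univ (fun z _ => Finset.mem_univ z), Finset.mul_sum, Finset.sum_mul]
    apply Finset.sum_congr rfl
    intro t _
    by_cases ht : t ∈ {t : Fin q → G | stb P Q e t = Q}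
    · simp only [if_pos ht]
      rw [mul_assoc u w]
      ring
    · simp only [if_neg ht]
      ring
  · simp only [if_neg hu, ite_self]
    exact Finset.sum_const_zero

theorem TSZ (hTBZ : TBZ_stmt) (hDEC : DEC_stmt) (hUQT : UQT_stmt) (hLIZ : LIZ_stmt) (hREP : REP_stmt) : TSZ_stmt := by
  classical
  intro p M h G _ _ D T x θ χ hZ l ψ hψ ψ' hψ' P hP w hw r
  obtain ⟨N₀, hN₀⟩ := hDEC p M h G P hP r
  refine ⟨N₀, fun N hN => ?_⟩
  have := Fintype.ofFinite G
  have hfin := TSZ_fin hREP h P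
  have hs' : ∀ z, z ∈ hfin.toFinset ↔ z.1 ≤ P ∧ Pai p M z.1 z.2 := fun z => hfin.mem_toFinset
  have hwu : ∀ u ∈ P, w ∈ Cz (⊤ : Subgroup G) u := by
    intro u hu
    refine Subgroup.mem_inf.2 ⟨Subgroup.mem_top _, Subgroup.mem_centralizer_iff.2 ?_⟩
    intro y hy
    rw [Set.mem_singleton_iff] at hy
    subst hy
    exact Subgroup.mem_centralizer_iff.1 hw y hu
  have hpg : ∀ u ∈ P, IsPGroup p (Subgroup.zpowers u) := by
    intro u hu
    exact hP.to_le (by rwa [Subgroup.zpowers_le])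
  have step1 : ∑ᶠ u ∈ (P : Set G), THZ M D T θ l ψ u w * ψ' (u * w)⁻¹ =
      ∑ u : G, if u ∈ P then (∑ᶠ e ∈ BB M (Cz (⊤ : Subgroup G) u),
        LamZ M D T θ l u (rep M (Cz (⊤ : Subgroup G) u) e) * ev ψ e (u * w)) * ψ' (u * w)⁻¹ else 0 := by
    rw [TSZ_fs (P : Set G) Finset.univ (fun z _ => Finset.mem_univ z)]
    apply Finset.sum_congr rfl
    intro u _
    by_cases hu : u ∈ P
    · rw [if_pos hu, if_pos (show u ∈ (P : Set G) from hu), hTBZ p M h G D T x θ χ hZ l ψ hψ u w (hwu u hu)]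
    · rw [if_neg hu, if_neg (show ¬ u ∈ (P : Set G) from hu)]
  have step2 : ∑ᶠ z ∈ {z : Subgroup G × (G → ℂ) | z.1 ≤ P ∧ Pai p M z.1 z.2},
      ∑ᶠ t ∈ {t : Fin (p ^ N) → G | stb P z.1 z.2 t = z.1},
        (∏ i, z.2 (t i)) * ∑ᶠ u ∈ (z.1 : Set G), LamP p M D T θ l z.1 z.2 u * ψ (u * (w * (List.ofFn t).prod)) * ψ' (u * w)⁻¹ =
      ∑ u : G, if u ∈ P then (∑ᶠ e ∈ BB M (Cz (⊤ : Subgroup G) u),
        LamZ M D T θ l u (rep M (Cz (⊤ : Subgroup G) u) e) *
          ∑ᶠ z ∈ Up p M P (Subgroup.zpowers u) e, YY P z.1 z.2 (p ^ N) (fun x => ψ (u * w * x))) * ψ' (u * w)⁻¹ else 0 := by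
    rw [finsum_mem_eq_finite_toFinset_sum _ hfin]
    rw [Finset.sum_congr rfl (fun z _ => TSZ_in P z.1 z.2 (p ^ N) w (LamP p M D T θ l z.1 z.2) ψ ψ')]
    rw [Finset.sum_comm]
    apply Finset.sum_congr rfl
    intro u _
    by_cases hu : u ∈ P
    · rw [if_pos hu, TSZ_ex hUQT hREP h P u hfin.toFinset hs'
        (fun e => LamZ M D T θ l u (rep M (Cz (⊤ : Subgroup G) u) e))
        (fun z => YY P z.1 z.2 (p ^ N) (fun x => ψ (u * w * x))), Finset.sum_mul]
      apply Finset.sum_congr rfl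
      intro z _
      by_cases hz : u ∈ z.1
      · simp only [if_pos hz]
        rfl
      · simp only [if_neg hz]
        rw [zero_mul]
    · rw [if_neg hu]
      apply Finset.sum_eq_zero
      intro z hz
      rw [if_neg]
      intro hc
      exact hu (((hs' z).1 hz).1 hc)
  rw [step1, step2, ← Finset.sum_sub_distrib]
  apply Small.sum h
  intro u _
  by_cases hu : u ∈ P
  · rw [if_pos hu, if_pos hu, ← sub_mul, mul_comm]
    apply Small.mul_left h (IntAt.of_isIntegral h (IrrOn_int hψ' _))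
    have hb := (hREP p M h G (Cz (⊤ : Subgroup G) u)).1
    rw [finsum_mem_eq_finite_toFinset_sum _ hb, finsum_mem_eq_finite_toFinset_sum _ hb, ← Finset.sum_sub_distrib]
    apply Small.sum h
    intro e he
    rw [← mul_sub]
    have heb : e ∈ BB M (Cz (⊤ : Subgroup G) u) := hb.mem_toFinset.1 he
    have hpai : Pai p M (Subgroup.zpowers u) e := ⟨hpg u hu, by rw [cz_zp]; exact heb⟩
    have hun : un p M (Subgroup.zpowers u) e (Subgroup.zpowers u) = e := (hUQT p M h G _ _ hpai).1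
    apply Small.mul_left h
    · have h1 := (hLIZ p M h G D T x θ χ hZ l (Subgroup.zpowers u) e hpai).1 u (Subgroup.mem_zpowers u)
      unfold LamP at h1
      rw [hun] at h1
      exact h1
    · exact hN₀ N hN (fun x => ψ (u * w * x)) (fun x => IntAt.of_isIntegral h (IrrOn_int hψ _)) (Subgroup.zpowers u) e hpai
        (by rwa [Subgroup.zpowers_le])
  · rw [if_neg hu, if_neg hu, sub_zero]
    exact Small.zero' h r

end Pool.Agent.GB
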